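import Pool.Agent.Helper7.KT.St

set_option autoImplicit false

namespace Pool.Agent.Helper42.KT

open Finset SimpleGraph Filter Topology
open EX Pool.Agent.Helper7.KT

open scoped Classical

theorem hKCS : StKCS := by
  intro V Γ j S
  set TT : Finset (Finset V) :=
    (powersetCard (j + 1) S).filter fun T : Finset V => Γ.IsClique (T : Set V) with hTT
  have h1 : (j + 1) * kc Γ (j + 1) S = ∑ T ∈ TT, T.card := by
    have h2 : ∑ T ∈ TT, T.card = ∑ _T ∈ TT, (j + 1) := by
      refine sum_congr rfl fun T hT => ?_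
      exact (mem_powersetCard.1 (mem_filter.1 hT).1).2
    rw [h2, sum_const, smul_eq_mul, mul_comm]
    rfl
  have h3 : ∑ T ∈ TT, T.card = ∑ T ∈ TT, (S.bipartiteAbove (fun T v => v ∈ T) T).card := by
    refine sum_congr rfl fun T hT => ?_
    congr 1
    ext v
    simp only [mem_bipartiteAbove]
    exact ⟨fun h => ⟨(mem_powersetCard.1 (mem_filter.1 hT).1).1 h, h⟩, fun h => h.2⟩
  rw [h1, h3, sum_card_bipartiteAbove_eq_sum_card_bipartiteBelow]
  refine sum_le_sum fun v _ => ?_
  unfold kc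
  refine card_le_card_of_injOn (fun T => T.erase v) ?_ ?_
  · intro T hT
    have hT0 := (mem_bipartiteBelow (fun (T : Finset V) v => v ∈ T)).1 (mem_coe.1 hT)
    obtain ⟨hT1, hv⟩ := hT0
    obtain ⟨hT2, hT3⟩ := mem_filter.1 hT1
    obtain ⟨hT4, hT5⟩ := mem_powersetCard.1 hT2
    refine mem_coe.2 (mem_filter.2 ⟨mem_powersetCard.2 ⟨?_, ?_⟩, ?_⟩)
    · intro x hx
      obtain ⟨hx1, hx2⟩ := mem_erase.1 hx
      exact mem_filter.2 ⟨hT4 hx2, hT3 (mem_coe.2 hv) (mem_coe.2 hx2) (Ne.symm hx1)⟩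
    · rw [card_erase_of_mem hv]; omega
    · exact hT3.subset (by exact_mod_cast erase_subset v T)
  · intro T hT T' hT' hE
    have hv := ((mem_bipartiteBelow (fun (T : Finset V) v => v ∈ T)).1 (mem_coe.1 hT)).2
    have hv' := ((mem_bipartiteBelow (fun (T : Finset V) v => v ∈ T)).1 (mem_coe.1 hT')).2
    have hE' : T.erase v = T'.erase v := hE
    rw [← insert_erase hv, ← insert_erase hv', hE']

end Pool.Agent.Helper42.KT
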